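import Pool.Agent.LRG.StmtsC

/-!
# Squad LRG, row LGR: the logarithms satisfy the relations of the arc
-/

set_option autoImplicit false

open Polynomial NumberField

namespace Pool.Agent.LRG.H72

theorem lgr_key {F κ : Type} [Field F] [Fintype κ] [DecidableEq κ] (x : κ → F) {q : ℕ}
    (B : Fin q → κ → ℤ) (N : κ → Fin q → ℤ) (hx : ∀ k, x k ≠ 0) (k : κ) :
    ∏ k', x k' ^ ((if k' = k then (1 : ℤ) else 0) - ∑ l, N k l * B l k') =
      x k / ∏ l, (∏ k', x k' ^ B l k') ^ N k l := by
  have h1 : ∀ k', x k' ^ ((if k' = k then (1 : ℤ) else 0) - ∑ l, N k l * B l k') =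
      (if k' = k then x k' else 1) / ∏ l, (x k' ^ B l k') ^ N k l := by
    intro k'
    rw [zpow_sub₀ (hx k')]
    congr 1
    · by_cases h : k' = k
      · rw [if_pos h, if_pos h, zpow_one]
      · rw [if_neg h, if_neg h, zpow_zero]
    · have h2 : ∀ s : Finset (Fin q), x k' ^ (∑ l ∈ s, N k l * B l k') =
          ∏ l ∈ s, (x k' ^ B l k') ^ N k l := by
        intro s
        induction s using Finset.induction_on with
        | empty => simp
        | insert a s ha ih =>
          rw [Finset.sum_insert ha, Finset.prod_insert ha, zpow_add₀ (hx k'), ih, mul_comm (N k a),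
            zpow_mul]
      exact h2 Finset.univ
  rw [Finset.prod_congr rfl fun k' _ => h1 k', Finset.prod_div_distrib, Finset.prod_ite_eq',
    if_pos (Finset.mem_univ k), Finset.prod_comm]
  congr 1
  refine Finset.prod_congr rfl fun l _ => ?_
  exact (Finset.prod_zpow _ _ _)

/-- Row LGR. -/
theorem lgr : CX.LgrStmt := by
  classical
  intro Ω _ D κ _ x X q B N hx hX h1 h2 k
  have h3 := h2 (fun k' => (if k' = k then (1 : ℤ) else 0) - ∑ l, N k l * B l k')
    (by rw [lgr_key x B N hx k]; exact h1 k)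
  rw [lgr_key X B N hX k, norm_div, norm_prod] at h3
  have h4 : ∀ l, ∏ k', X k' ^ B l k' ≠ 0 := fun l =>
    Finset.prod_ne_zero_iff.2 fun k' _ => zpow_ne_zero _ (hX k')
  have h5 : (∏ l, ‖(∏ k', X k' ^ B l k') ^ N k l‖) ≠ 0 :=
    Finset.prod_ne_zero_iff.2 fun l _ => norm_ne_zero_iff.2 (zpow_ne_zero _ (h4 l))
  have h6 : ‖X k‖ = ∏ l, ‖(∏ k', X k' ^ B l k') ^ N k l‖ := (div_eq_one_iff_eq h5).1 h3
  rw [h6, Real.log_prod fun l _ => norm_ne_zero_iff.2 (zpow_ne_zero _ (h4 l))]
  refine Finset.sum_congr rfl fun l _ => ?_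
  rw [norm_zpow, Real.log_zpow]

end Pool.Agent.LRG.H72
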