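import Pool.Agent.LRG.StmtsB3

/-!
# Squad LRG, row TOX: existence of the tower relations
-/

set_option autoImplicit false

open Polynomial

namespace Pool.Agent.LRG.H72

/-- The bounds of the total degrees of the variables `yv`. -/
def dd (b : ℕ → ℕ) (m : ℕ) : ℕ → ℕ
  | 0 => 1
  | j + 1 => max (dd b m j) ((b (dd b m j) + 1) ^ m)

theorem one_le_dd (b : ℕ → ℕ) (m j : ℕ) : 1 ≤ dd b m j := by
  induction j with
  | zero => exact le_refl 1
  | succ j ih => exact ih.trans (le_max_left _ _)

/-- The variables of the tower commute with ring homomorphisms. -/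
theorem yv_map (D : ℕ → ℕ) {m : ℕ} {O O' : Type} [CommRing O] [CommRing O'] (f : O →+* O')
    (k : ℕ) : ∀ (x : Fin (m + k) → O) (i : Fin m), yv D k (fun a => f (x a)) i = f (yv D k x i) := by
  induction k with
  | zero => intro x i; rfl
  | succ k ih =>
    intro x i
    show yv D k (Fin.tail (n := m + k) (α := fun _ => O') (fun a => f (x a))) i -
        f (x (0 : Fin (m + k + 1))) ^ (D k + 1) ^ ((i : ℕ) + 1) =
      f (yv D k (Fin.tail (n := m + k) (α := fun _ => O) x) i -
        x (0 : Fin (m + k + 1)) ^ (D k + 1) ^ ((i : ℕ) + 1))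
    rw [map_sub, map_pow, ← ih]
    rfl

theorem yv_deg (b : ℕ → ℕ) {m : ℕ} {τ : Type} (k : ℕ) :
    ∀ X : Fin (m + k) → MvPolynomial τ ℤ, (∀ a, (X a).totalDegree ≤ 1) → ∀ i : Fin m,
      (yv (fun j => b (dd b m j)) k X i).totalDegree ≤ dd b m k := by
  induction k with
  | zero => intro X hX i; exact hX i
  | succ k ih =>
    intro X hX i
    show (yv (fun j => b (dd b m j)) k
        (Fin.tail (n := m + k) (α := fun _ => MvPolynomial τ ℤ) X) i -
        X (0 : Fin (m + k + 1)) ^ (b (dd b m k) + 1) ^ ((i : ℕ) + 1)).totalDegree ≤ _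
    refine (MvPolynomial.totalDegree_sub _ _).trans (max_le ?_ ?_)
    · exact (ih _ (fun a => hX a.succ) i).trans (le_max_left _ _)
    · refine (MvPolynomial.totalDegree_pow _ _).trans ?_
      have h1 : (b (dd b m k) + 1) ^ ((i : ℕ) + 1) ≤ (b (dd b m k) + 1) ^ m :=
        Nat.pow_le_pow_right (Nat.succ_pos _) i.2
      calc _ ≤ (b (dd b m k) + 1) ^ ((i : ℕ) + 1) * 1 := Nat.mul_le_mul_left _ (hX 0)
        _ ≤ (b (dd b m k) + 1) ^ m := by rw [mul_one]; exact h1
        _ ≤ _ := le_max_right _ _

/-- The last `m + k'` coordinates. -/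
def drp {m k k' : ℕ} (h : k' ≤ k) : Fin (m + k') → Fin (m + k) :=
  fun i => ⟨i + (k - k'), by have := i.2; omega⟩

theorem rels_of (D : ℕ → ℕ) {m k : ℕ} (s : (j : ℕ) → (Fin (m + 1) → Fin (D j + 1)) → ℤ)
    (x : Fin (m + k) → ℤ)
    (h : ∀ j (hj : j < k), gv (s j) (Fin.cons (α := fun _ => ℤ)
      (x (drp (m := m) (k' := j + 1) hj (0 : Fin (m + j + 1))))
      (yv D j (fun a => x (drp hj.le a)))) = 0) :
    ∀ k' (hk' : k' ≤ k), Rels D s k' (fun a => x (drp hk' a)) := by
  intro k'
  induction k' with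
  | zero => intro _; trivial
  | succ j ih =>
    intro hj
    have e : Fin.tail (n := m + j) (α := fun _ => ℤ) (fun a => x (drp (k' := j + 1) hj a)) =
        fun a => x (drp (Nat.le_of_succ_le hj) a) := by
      funext a
      have e1 : drp (m := m) (k' := j + 1) hj (Fin.succ (n := m + j) a) =
          drp (Nat.le_of_succ_le hj) a := by
        apply Fin.ext
        show (a : ℕ) + 1 + (k - (j + 1)) = a + (k - j)
        omega
      show x (drp (m := m) (k' := j + 1) hj (Fin.succ (n := m + j) a)) = _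
      rw [e1]
    have r1 : Rels D s j (Fin.tail (n := m + j) (α := fun _ => ℤ)
        (fun a => x (drp (k' := j + 1) hj a))) := by
      rw [e]; exact ih _
    have r2 : gv (s j) (Fin.cons (α := fun _ => ℤ)
        (x (drp (m := m) (k' := j + 1) hj (0 : Fin (m + j + 1))))
        (yv D j (Fin.tail (n := m + j) (α := fun _ => ℤ)
          (fun a => x (drp (k' := j + 1) hj a))))) = 0 := by
      rw [e]; exact h j hj
    exact ⟨r1, r2⟩

/-- Row TOX. -/
theorem tox : ToxStmt := by
  intro H m k E
  choose b hb using H m k E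
  refine ⟨fun j => b (dd b m j), ?_⟩
  intro T G hG
  have h1 : ∀ j : ℕ, j < k → ∃ c : (Fin (m + 1) → Fin (b (dd b m j) + 1)) → ℤ,
      (∀ q : ℕ, q.Prime → ∃ α, ¬ (q : ℤ) ∣ c α) ∧ ∀ (hj : j < k), ∀ x ∈ T,
        gv c (Fin.cons (α := fun _ => ℤ)
          (x (drp (m := m) (k' := j + 1) hj (0 : Fin (m + j + 1))))
          (yv (fun j => b (dd b m j)) j (fun a => x (drp hj.le a)))) = 0 := by
    intro j hj
    obtain ⟨c, hc, hc'⟩ := hb (dd b m j) T G hG
      (Fin.cons (α := fun _ => MvPolynomial (Fin (m + k)) ℤ)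
        (MvPolynomial.X (drp (m := m) (k' := j + 1) hj (0 : Fin (m + j + 1))))
        (yv (fun j => b (dd b m j)) j (fun a => MvPolynomial.X (drp hj.le a)))) (by
        intro i
        refine Fin.cases ?_ (fun i => ?_) i
        · rw [Fin.cons_zero]
          exact (MvPolynomial.totalDegree_X _).le.trans (one_le_dd b m j)
        · rw [Fin.cons_succ]
          exact yv_deg b j _ (fun a => (MvPolynomial.totalDegree_X _).le) i)
    refine ⟨c, hc, fun _ x hx => ?_⟩
    rw [← hc' x hx]
    congr 1
    funext i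
    refine Fin.cases ?_ (fun i => ?_) i
    · rw [Fin.cons_zero, Fin.cons_zero, MvPolynomial.eval_X]
    · rw [Fin.cons_succ, Fin.cons_succ]
      rw [← yv_map (fun j => b (dd b m j)) (MvPolynomial.eval x) j
        (fun a => MvPolynomial.X (drp hj.le a)) i]
      simp only [MvPolynomial.eval_X]
  choose c hc1 hc2 using h1
  refine ⟨fun j => if h : j < k then c j h else fun _ => 1, ?_, ?_⟩
  · intro q hq j
    by_cases h : j < k
    · obtain ⟨α, hα⟩ := hc1 j h q hq
      exact ⟨α, by simpa [h] using hα⟩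
    · refine ⟨fun _ => 0, ?_⟩
      simp only [h, dite_false]
      intro h2
      have h3 := Int.natAbs_dvd_natAbs.2 h2
      have h4 : q ∣ 1 := by simpa using h3
      exact hq.one_lt.ne' (Nat.dvd_one.1 h4)
  · intro x hx
    have h2 := rels_of (fun j => b (dd b m j))
      (fun j => if h : j < k then c j h else fun _ => 1) x (by
        intro j hj
        have h3 := hc2 j hj hj x hx
        simp only [hj, dite_true]
        exact h3) k le_rfl
    have e : (fun a => x (drp (m := m) (le_refl k) a)) = x := by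
      funext a
      congr 1
      apply Fin.ext
      show (a : ℕ) + (k - k) = a
      omega
    rw [e] at h2
    exact h2

end Pool.Agent.LRG.H72
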